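import Mathlib

/-!
# Transitivity of T-characterized subgroups fails

We give a compact metrizable abelian group `X` (namely `ℤ/4 × (ℤ/2)^ℕ × (ℤ/2)^ℕ`) and subgroups
`X₀ ≤ X₁ ≤ X₂ = X` such that `X₁` is dually embedded in `X₂`, `X₀` is T-characterized in `X₁`,
`X₁` is T-characterized in `X₂`, but `X₀` is not T-characterized in `X₂`.

Idea: `X₁ = {(x, y, z) | 2 x = 0, y = 0}` and `X₀ = 0`.  Both the annihilator of `X₁` in the dual of
`X₂` and the dual of `X₁` contain a copy of the direct sum of countably many copies of `ℤ/2`, on which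
we exhibit an explicit T-sequence (through an explicit group norm) whose common kernel is trivial;
on the other hand doubling maps the dual of `X₂` onto a group with two elements, so that for every
T-sequence `w` in the dual of `X₂` the sequence `2 w_n` vanishes eventually, hence
`w_n (2, 0, 0) = 0` eventually.
-/

set_option autoImplicit false

open Filter Topology

namespace Pool.Agent.Results.MP_24a371_gt.TransitivityFails

/-- A sequence `v` in an (abstract) abelian group `G` is a *T-sequence* if `G` admits a Hausdorff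
group topology in which `v` converges to `0`. -/
def IsTSequence {G : Type*} [AddCommGroup G] (v : ℕ → G) : Prop :=
  ∃ τ : TopologicalSpace G, @IsTopologicalAddGroup G τ _ ∧ @T2Space G τ ∧
    Tendsto v atTop (@nhds G τ 0)

section Definitions

variable {Y : Type*} [AddCommGroup Y] [TopologicalSpace Y]

/-- For a sequence `v` of characters (continuous homomorphisms to `ℝ/ℤ`) of a topological abelian
group `Y`, the subgroup `s_v(Y)` of all `y` in `Y` with `v_n(y) → 0` in `ℝ/ℤ`. -/
def charSubgroup (v : ℕ → (Y →ₜ+ UnitAddCircle)) : AddSubgroup Y where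
  carrier := {y | Tendsto (fun n => v n y) atTop (𝓝 0)}
  zero_mem' := by simp
  add_mem' := by
    intro a b ha hb
    have := Filter.Tendsto.add ha hb
    simpa using this
  neg_mem' := by
    intro a ha
    have := Filter.Tendsto.neg ha
    simpa using this

/-- `H ≤ Y` is *T-characterized* if `H = s_v(Y)` for some sequence `v` of characters of `Y` which is
a T-sequence in the abstract group of all characters of `Y`. -/
def IsTCharacterized (H : AddSubgroup Y) : Prop :=
  ∃ v : ℕ → (Y →ₜ+ UnitAddCircle), IsTSequence v ∧ H = charSubgroup v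

/-- `H ≤ Y` is *dually embedded* if every character of `H` (with the subspace topology) extends to a
character of `Y`. -/
def IsDuallyEmbedded (H : AddSubgroup Y) : Prop :=
  ∀ χ : H →ₜ+ UnitAddCircle, ∃ ψ : Y →ₜ+ UnitAddCircle, ∀ h : H, ψ h = χ h

end Definitions

section Cost

variable {G : Type*} [AddCommGroup G] (v : ℕ → G) (c : ℕ → ℝ)

/-- evaluation of a formal combination -/
noncomputable def ev : (ℕ →₀ ℤ) →+ G :=
  Finsupp.liftAddHom (fun n => (zmultiplesHom G (v n)))

lemma ev_single (n : ℕ) (k : ℤ) : ev v (Finsupp.single n k) = k • v n := by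
  simp [ev]

lemma ev_apply (f : ℕ →₀ ℤ) : ev v f = ∑ n ∈ f.support, f n • v n := by
  simp [ev, Finsupp.liftAddHom_apply, Finsupp.sum]

/-- the cost of a formal combination -/
noncomputable def cost (f : ℕ →₀ ℤ) : ℝ := ∑ n ∈ f.support, |(f n : ℝ)| * c n

lemma cost_eq_of_subset {f : ℕ →₀ ℤ} {s : Finset ℕ} (h : f.support ⊆ s) :
    cost c f = ∑ n ∈ s, |(f n : ℝ)| * c n := by
  unfold cost
  apply Finset.sum_subset h
  intro x _ hx
  simp [Finsupp.notMem_support_iff.mp hx]

variable {c}

lemma cost_nonneg (hc : ∀ n, 0 ≤ c n) (f : ℕ →₀ ℤ) : 0 ≤ cost c f :=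
  Finset.sum_nonneg fun n _ => mul_nonneg (abs_nonneg _) (hc n)

lemma cost_zero : cost c (0 : ℕ →₀ ℤ) = 0 := by simp [cost]

lemma cost_neg (f : ℕ →₀ ℤ) : cost c (-f) = cost c f := by
  simp [cost]

lemma cost_add (hc : ∀ n, 0 ≤ c n) (f g : ℕ →₀ ℤ) : cost c (f + g) ≤ cost c f + cost c g := by
  classical
  rw [cost_eq_of_subset c (f := f + g) Finsupp.support_add,
    cost_eq_of_subset c (f := f) (Finset.subset_union_left (s₂ := g.support)),
    cost_eq_of_subset c (f := g) (Finset.subset_union_right (s₁ := f.support)),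
    ← Finset.sum_add_distrib]
  apply Finset.sum_le_sum
  intro n _
  rw [← add_mul]
  apply mul_le_mul_of_nonneg_right _ (hc n)
  simp only [Finsupp.coe_add, Pi.add_apply, Int.cast_add]
  exact abs_add_le _ _

open Classical in
/-- cost plus penalty -/
noncomputable def pen (c : ℕ → ℝ) (g : G) (f : ℕ →₀ ℤ) : ℝ :=
  cost c f + if ev v f = g then 0 else 1

lemma pen_nonneg (hc : ∀ n, 0 ≤ c n) (g : G) (f : ℕ →₀ ℤ) : 0 ≤ pen v c g f := by
  unfold pen
  have := cost_nonneg hc f
  split_ifs <;> linarith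

lemma bdd_pen (hc : ∀ n, 0 ≤ c n) (g : G) : BddBelow (Set.range (pen v c g)) :=
  ⟨0, by rintro _ ⟨f, rfl⟩; exact pen_nonneg v hc g f⟩

open Classical in
/-- the norm -/
noncomputable def nrm (hc : ∀ n, 0 ≤ c n)
    (h : ∀ g : G, g ≠ 0 → ∃ δ : ℝ, 0 < δ ∧ ∀ f : ℕ →₀ ℤ, ev v f = g → δ ≤ cost c f) :
    AddGroupNorm G where
  toFun g := ⨅ f : ℕ →₀ ℤ, pen v c g f
  map_zero' := by
    apply le_antisymm
    · refine ciInf_le_of_le (bdd_pen v hc 0) 0 ?_
      simp [pen, cost_zero]
    · exact le_ciInf fun f => pen_nonneg v hc 0 f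
  add_le' g g' := by
    apply le_ciInf_add_ciInf
    intro f f'
    refine ciInf_le_of_le (bdd_pen v hc _) (f + f') ?_
    have h1 := cost_add hc f f'
    unfold pen
    by_cases h2 : ev v f = g
    · by_cases h3 : ev v f' = g'
      · rw [if_pos h2, if_pos h3, if_pos (by rw [map_add, h2, h3])]
        linarith
      · rw [if_pos h2, if_neg h3]
        split_ifs <;> linarith
    · rw [if_neg h2]
      split_ifs <;> linarith
  neg' g := by
    refine Equiv.iInf_congr (Equiv.neg _) ?_
    intro f
    have h1 : (ev v (-f) = g) ↔ (ev v f = -g) := by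
      rw [map_neg, neg_eq_iff_eq_neg]
    change cost c (-f) + (if ev v (-f) = g then (0 : ℝ) else 1) =
      cost c f + (if ev v f = -g then (0 : ℝ) else 1)
    rw [cost_neg, if_congr h1 rfl rfl]
  eq_zero_of_map_eq_zero' g hg := by
    by_contra hne
    obtain ⟨δ, hδ, hδ'⟩ := h g hne
    have : min δ 1 ≤ ⨅ f : ℕ →₀ ℤ, pen v c g f := by
      apply le_ciInf
      intro f
      unfold pen
      split_ifs with h1
      · have := hδ' f h1
        linarith [min_le_left δ 1]
      · have := cost_nonneg hc f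
        linarith [min_le_right δ 1]
    have h2 : 0 < min δ 1 := lt_min hδ one_pos
    change (⨅ f : ℕ →₀ ℤ, pen v c g f) = 0 at hg
    linarith

theorem isTSequence_of_cost (hc : ∀ n, 0 ≤ c n) (hc0 : Tendsto c atTop (𝓝 0))
    (h : ∀ g : G, g ≠ 0 → ∃ δ : ℝ, 0 < δ ∧ ∀ f : ℕ →₀ ℤ, ev v f = g → δ ≤ cost c f) :
    IsTSequence v := by
  let N : NormedAddCommGroup G := (nrm v hc h).toNormedAddCommGroup
  refine ⟨N.toPseudoMetricSpace.toUniformSpace.toTopologicalSpace, ?_, ?_, ?_⟩
  · infer_instance
  · infer_instance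
  · rw [tendsto_zero_iff_norm_tendsto_zero]
    refine squeeze_zero (fun n => norm_nonneg _) (fun n => ?_) hc0
    change (⨅ f : ℕ →₀ ℤ, pen v c (v n) f) ≤ c n
    refine ciInf_le_of_le (bdd_pen v hc _) (Finsupp.single n 1) ?_
    unfold pen
    rw [ev_single, one_smul, if_pos rfl, add_zero]
    rw [cost_eq_of_subset c (f := Finsupp.single n 1) (s := {n}) Finsupp.support_single_subset]
    simp

end Cost

section Block

/-- the model sequence in the countable vector space over `F_2` -/
noncomputable def mseq (n : ℕ) : ℕ →₀ ZMod 2 :=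
  if n % 2 = 0 then Finsupp.single (n / 2) 1
  else Finsupp.single (Nat.unpair (n / 2)).1 1 +
    ∑ i ∈ Finset.Ico (2 ^ (n / 2)) (2 ^ (n / 2 + 1)), Finsupp.single i 1

lemma mseq_even (n : ℕ) : mseq (2 * n) = Finsupp.single n 1 := by
  simp [mseq]

lemma mseq_odd (n : ℕ) : mseq (2 * n + 1) = Finsupp.single (Nat.unpair n).1 1 +
    ∑ i ∈ Finset.Ico (2 ^ n) (2 ^ (n + 1)), Finsupp.single i 1 := by
  have h1 : (2 * n + 1) % 2 = 1 := by omega
  have h2 : (2 * n + 1) / 2 = n := by omega
  simp [mseq, h1, h2]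

lemma mseq_even_apply (n i : ℕ) : mseq (2 * n) i = if i = 2 * n / 2 then 1 else 0 := by
  rw [mseq_even, Finsupp.single_apply]
  have : 2 * n / 2 = n := by omega
  rw [this]
  simp [eq_comm]

lemma block_disj {m n i : ℕ} (h : 2 ^ m ≤ i) (h' : i < 2 ^ (m + 1)) (hi : 2 ^ n ≤ i)
    (hi' : i < 2 ^ (n + 1)) : n = m := by
  have h1 : m < n + 1 := (Nat.pow_lt_pow_iff_right (by norm_num : 1 < 2)).mp (lt_of_le_of_lt h hi')
  have h2 : n < m + 1 := (Nat.pow_lt_pow_iff_right (by norm_num : 1 < 2)).mp (lt_of_le_of_lt hi h')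
  omega

lemma mseq_odd_apply {n m i : ℕ} (hn : n ≤ m) (h : 2 ^ m ≤ i) (h' : i < 2 ^ (m + 1)) :
    mseq (2 * n + 1) i = if n = m then 1 else 0 := by
  have h0 : (Nat.unpair n).1 ≠ i := by
    have h1 : (Nat.unpair n).1 ≤ n := Nat.unpair_left_le n
    have h2 : n < 2 ^ n := Nat.lt_two_pow_self
    have h3 : 2 ^ n ≤ 2 ^ m := Nat.pow_le_pow_right (by norm_num) hn
    omega
  rw [mseq_odd, Finsupp.add_apply, Finsupp.single_apply, if_neg h0, zero_add,
    Finsupp.finsetSum_apply]
  simp only [Finsupp.single_apply]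
  rw [Finset.sum_ite_eq']
  by_cases hnm : n = m
  · subst hnm
    rw [if_pos rfl, if_pos (Finset.mem_Ico.mpr ⟨h, h'⟩)]
  · rw [if_neg hnm, if_neg]
    intro hmem
    obtain ⟨h4, h5⟩ := Finset.mem_Ico.mp hmem
    exact hnm (block_disj h h' h4 h5)

lemma ev_mseq_apply (f : ℕ →₀ ℤ) (i : ℕ) :
    ev mseq f i = ∑ n ∈ f.support, (f n : ZMod 2) * mseq n i := by
  rw [ev_apply, Finsupp.finsetSum_apply]
  apply Finset.sum_congr rfl
  intro n _
  rw [Finsupp.smul_apply, zsmul_eq_mul]

lemma abs_ge_one {k : ℤ} (h : (k : ZMod 2) ≠ 0) : (1 : ℝ) ≤ |(k : ℝ)| := by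
  have h1 : k ≠ 0 := by
    rintro rfl
    simp at h
  have h2 : (1 : ℤ) ≤ |k| := Int.one_le_abs h1
  calc (1 : ℝ) = ((1 : ℤ) : ℝ) := by simp
    _ ≤ ((|k| : ℤ) : ℝ) := by exact_mod_cast h2
    _ = |(k : ℝ)| := by simp

lemma cost_ge {c : ℕ → ℝ} (hc : ∀ n, 0 ≤ c n) (f : ℕ →₀ ℤ) (s : Finset ℕ)
    (hs : ∀ n ∈ s, (f n : ZMod 2) ≠ 0) : ∑ n ∈ s, c n ≤ cost c f := by
  have hsub : s ⊆ f.support := by
    intro n hn
    rw [Finsupp.mem_support_iff]
    intro h0
    exact hs n hn (by simp [h0])
  unfold cost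
  calc ∑ n ∈ s, c n ≤ ∑ n ∈ s, |(f n : ℝ)| * c n := by
        apply Finset.sum_le_sum
        intro n hn
        nlinarith [abs_ge_one (hs n hn), hc n]
    _ ≤ ∑ n ∈ f.support, |(f n : ℝ)| * c n :=
        Finset.sum_le_sum_of_subset_of_nonneg hsub
          (fun n _ _ => mul_nonneg (abs_nonneg _) (hc n))

/-- the costs -/
noncomputable def cs (n : ℕ) : ℝ := 1 / ((n : ℝ) + 1)

lemma cs_nonneg (n : ℕ) : 0 ≤ cs n := by unfold cs; positivity

lemma cs_tendsto : Tendsto cs atTop (𝓝 0) := tendsto_one_div_add_atTop_nhds_zero_nat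

lemma cs_anti {m n : ℕ} (h : m ≤ n) : cs n ≤ cs m := by
  unfold cs
  apply one_div_le_one_div_of_le (by positivity)
  have : (m : ℝ) ≤ n := by exact_mod_cast h
  linarith

lemma block_sum (m : ℕ) : (1 : ℝ) / 4 ≤ ∑ i ∈ Finset.Ico (2 ^ m) (2 ^ (m + 1)), cs (2 * i) := by
  have h1 : ∀ i ∈ Finset.Ico (2 ^ m) (2 ^ (m + 1)), (1 : ℝ) / (4 * 2 ^ m) ≤ cs (2 * i) := by
    intro i hi
    have h2 := (Finset.mem_Ico.mp hi).2
    unfold cs
    apply one_div_le_one_div_of_le (by positivity)
    have h3 : 2 * i + 1 ≤ 4 * 2 ^ m := by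
      rw [pow_succ] at h2
      omega
    exact_mod_cast h3
  calc (1 : ℝ) / 4 = ∑ i ∈ Finset.Ico (2 ^ m) (2 ^ (m + 1)), (1 : ℝ) / (4 * 2 ^ m) := by
        rw [Finset.sum_const, Nat.card_Ico, nsmul_eq_mul]
        have : 2 ^ (m + 1) - 2 ^ m = 2 ^ m := by
          rw [pow_succ]; omega
        rw [this]
        push_cast
        field_simp
    _ ≤ _ := Finset.sum_le_sum h1

lemma mseq_cost (g : ℕ →₀ ZMod 2) (hg : g ≠ 0) :
    ∃ δ : ℝ, 0 < δ ∧ ∀ f : ℕ →₀ ℤ, ev mseq f = g → δ ≤ cost cs f := by
  classical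
  obtain ⟨M, hM⟩ : ∃ M : ℕ, ∀ i, g i ≠ 0 → i ≤ M := by
    refine ⟨g.support.sup id, fun i hi => ?_⟩
    exact Finset.le_sup (f := id) (Finsupp.mem_support_iff.mpr hi)
  refine ⟨min (1 / 4) (cs (2 * M + 1)), lt_min (by norm_num) (by unfold cs; positivity), ?_⟩
  intro f hf
  let P : Finset ℕ := (f.support.filter (fun n => n % 2 = 1 ∧ (f n : ZMod 2) ≠ 0)).image (· / 2)
  have hP : ∀ n, n ∈ P ↔ (f (2 * n + 1) : ZMod 2) ≠ 0 := by
    intro n
    simp only [P, Finset.mem_image, Finset.mem_filter, Finsupp.mem_support_iff]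
    constructor
    · rintro ⟨a, ⟨_, ha2, ha3⟩, ha4⟩
      have : a = 2 * n + 1 := by omega
      rwa [this] at ha3
    · intro h
      refine ⟨2 * n + 1, ⟨?_, by omega, h⟩, by omega⟩
      intro h0
      exact h (by simp [h0])
  have hz2 : ∀ x : ZMod 2, x ≠ 0 → x = 1 := by decide
  by_cases hPe : P.Nonempty
  · -- the largest odd index
    let m := P.max' hPe
    have hm : m ∈ P := Finset.max'_mem P hPe
    have hmax : ∀ n ∈ P, n ≤ m := fun n hn => Finset.le_max' P n hn
    have hcoord : ∀ i ∈ Finset.Ico (2 ^ m) (2 ^ (m + 1)), g i = (f (2 * i) : ZMod 2) + 1 := by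
      intro i hi
      obtain ⟨hi1, hi2⟩ := Finset.mem_Ico.mp hi
      have h1 : ∀ n ∈ f.support, (f n : ZMod 2) * mseq n i =
          (if n = 2 * i then (f n : ZMod 2) else 0) +
            (if n = 2 * m + 1 then (f n : ZMod 2) else 0) := by
        intro n _
        rcases Nat.even_or_odd' n with ⟨k, hk | hk⟩
        · subst hk
          rw [mseq_even, Finsupp.single_apply]
          have e1 : ¬ (2 * k = 2 * m + 1) := by omega
          rw [if_neg e1, add_zero]
          by_cases e2 : k = i
          · subst e2; simp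
          · have e3 : ¬ (2 * k = 2 * i) := by omega
            rw [if_neg e2, if_neg e3, mul_zero]
        · subst hk
          have e1 : ¬ (2 * k + 1 = 2 * i) := by omega
          rw [if_neg e1, zero_add]
          by_cases hkP : k ∈ P
          · rw [mseq_odd_apply (hmax k hkP) hi1 hi2]
            by_cases e2 : k = m
            · subst e2; simp
            · have e3 : ¬ (2 * k + 1 = 2 * m + 1) := by omega
              rw [if_neg e2, if_neg e3, mul_zero]
          · have e4 : (f (2 * k + 1) : ZMod 2) = 0 := by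
              by_contra hne
              exact hkP ((hP k).mpr hne)
            rw [e4]; simp
      rw [← hf, ev_mseq_apply, Finset.sum_congr rfl h1, Finset.sum_add_distrib,
        Finset.sum_ite_eq', Finset.sum_ite_eq']
      have hm1 : (f (2 * m + 1) : ZMod 2) = 1 := hz2 _ ((hP m).mp hm)
      have hm2 : 2 * m + 1 ∈ f.support := by
        rw [Finsupp.mem_support_iff]
        intro h0
        rw [h0] at hm1
        simp at hm1
      rw [if_pos hm2, hm1]
      congr 1
      split_ifs with h5
      · rfl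
      · rw [Finsupp.notMem_support_iff.mp h5]; simp
    by_cases hall : ∀ i ∈ Finset.Ico (2 ^ m) (2 ^ (m + 1)), (f (2 * i) : ZMod 2) ≠ 0
    · refine le_trans (min_le_left _ _) (le_trans (block_sum m) ?_)
      have := cost_ge cs_nonneg f ((Finset.Ico (2 ^ m) (2 ^ (m + 1))).image (2 * ·)) (by
        intro n hn
        obtain ⟨i, hi, rfl⟩ := Finset.mem_image.mp hn
        exact hall i hi)
      rw [Finset.sum_image (by intro a _ b _ hab; simpa using hab)] at this
      exact this
    · push Not at hall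
      obtain ⟨i, hi, hi0⟩ := hall
      have hgi : g i ≠ 0 := by
        rw [hcoord i hi, hi0]; simp
      have hiM := hM i hgi
      have hmi : m ≤ M := by
        have := (Finset.mem_Ico.mp hi).1
        have h2 : m < 2 ^ m := Nat.lt_two_pow_self
        omega
      refine le_trans (min_le_right _ _) (le_trans (cs_anti (by omega : 2 * m + 1 ≤ 2 * M + 1)) ?_)
      have := cost_ge cs_nonneg f {2 * m + 1} (by
        intro n hn
        rw [Finset.mem_singleton.mp hn]
        exact (hP m).mp hm)
      simpa using this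
  · -- no odd index
    rw [Finset.not_nonempty_iff_eq_empty] at hPe
    obtain ⟨i, hgi⟩ : ∃ i, g i ≠ 0 := by
      by_contra hcon
      push Not at hcon
      exact hg (Finsupp.ext hcon)
    have hcoord : g i = (f (2 * i) : ZMod 2) := by
      have h1 : ∀ n ∈ f.support, (f n : ZMod 2) * mseq n i =
          (if n = 2 * i then (f n : ZMod 2) else 0) := by
        intro n _
        rcases Nat.even_or_odd' n with ⟨k, hk | hk⟩
        · subst hk
          rw [mseq_even, Finsupp.single_apply]
          by_cases e2 : k = i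
          · subst e2; simp
          · have e3 : ¬ (2 * k = 2 * i) := by omega
            rw [if_neg e2, if_neg e3, mul_zero]
        · subst hk
          have e1 : ¬ (2 * k + 1 = 2 * i) := by omega
          rw [if_neg e1]
          have e4 : (f (2 * k + 1) : ZMod 2) = 0 := by
            by_contra hne
            have := (hP k).mpr hne
            rw [hPe] at this
            simp at this
          rw [e4]; simp
      rw [← hf, ev_mseq_apply, Finset.sum_congr rfl h1, Finset.sum_ite_eq']
      split_ifs with h5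
      · rfl
      · rw [Finsupp.notMem_support_iff.mp h5]; simp
    have hiM := hM i hgi
    refine le_trans (min_le_right _ _) (le_trans (cs_anti (by omega : 2 * i ≤ 2 * M + 1)) ?_)
    have := cost_ge cs_nonneg f {2 * i} (by
      intro n hn
      rw [Finset.mem_singleton.mp hn, ← hcoord]
      exact hgi)
    simpa using this

/-- Any injective image of the model sequence is a T-sequence. -/
theorem isTSequence_of_injective {G : Type*} [AddCommGroup G] (Φ : (ℕ →₀ ZMod 2) →+ G)
    (hΦ : Function.Injective Φ) : IsTSequence (fun n => Φ (mseq n)) := by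
  apply isTSequence_of_cost (c := cs) _ cs_nonneg cs_tendsto
  have key : ∀ f : ℕ →₀ ℤ, ev (fun n => Φ (mseq n)) f = Φ (ev mseq f) := by
    intro f
    rw [ev_apply, ev_apply, map_sum]
    apply Finset.sum_congr rfl
    intro n _
    rw [map_zsmul]
  intro g hg
  by_cases h : ∃ g', Φ g' = g
  · obtain ⟨g', rfl⟩ := h
    have hg' : g' ≠ 0 := by
      rintro rfl
      simp at hg
    obtain ⟨δ, hδ, hδ'⟩ := mseq_cost g' hg'
    refine ⟨δ, hδ, fun f hf => hδ' f ?_⟩
    rw [key] at hf
    exact hΦ hf
  · refine ⟨1, one_pos, fun f hf => ?_⟩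
    exfalso
    exact h ⟨ev mseq f, by rw [← key, hf]⟩

end Block


section Dual

variable {Y : Type*} [AddCommGroup Y] [TopologicalSpace Y]

lemma circle_two {t : UnitAddCircle} (h : (2 : ℕ) • t = 0) :
    t = 0 ∨ t = ((1 / 2 : ℝ) : UnitAddCircle) := by
  induction t using QuotientAddGroup.induction_on with
  | H x =>
    have h1 : ((2 * x : ℝ) : UnitAddCircle) = 0 := by
      rw [← h, two_mul, two_nsmul]
      rfl
    rw [AddCircle.coe_eq_zero_iff] at h1
    obtain ⟨n, hn⟩ := h1
    simp only [zsmul_eq_mul, mul_one] at hn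
    rcases Int.even_or_odd' n with ⟨k, hk | hk⟩
    · left
      have : x = k := by
        rw [hk] at hn
        push_cast at hn
        linarith
      change ((x : ℝ) : UnitAddCircle) = 0
      rw [AddCircle.coe_eq_zero_iff]
      exact ⟨k, by simp [this]⟩
    · right
      have : x = k + 1 / 2 := by
        rw [hk] at hn
        push_cast at hn
        linarith
      change ((x : ℝ) : UnitAddCircle) = _
      rw [this, AddCircle.coe_add]
      have : ((k : ℝ) : UnitAddCircle) = 0 := by
        rw [AddCircle.coe_eq_zero_iff]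
        exact ⟨k, by simp⟩
      rw [this, zero_add]

lemma eventually_zero {u : ℕ → UnitAddCircle} (h2 : ∀ n, (2 : ℕ) • u n = 0)
    (hu : Tendsto u atTop (𝓝 0)) : ∀ᶠ n in atTop, u n = 0 := by
  by_cases h : ((1 / 2 : ℝ) : UnitAddCircle) = 0
  · filter_upwards with n
    rcases circle_two (h2 n) with h3 | h3
    · exact h3
    · rw [h3, h]
  · have : ∀ᶠ t in 𝓝 (0 : UnitAddCircle), t ≠ ((1 / 2 : ℝ) : UnitAddCircle) :=
      isOpen_ne.mem_nhds (Ne.symm h)
    filter_upwards [hu.eventually this] with n hn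
    exact (circle_two (h2 n)).resolve_right hn

/-- the homomorphism from the `F_2`-space given by a sequence of characters of order two -/
noncomputable def phi (e : ℕ → (Y →ₜ+ UnitAddCircle)) (he : ∀ i, (2 : ℤ) • e i = 0) :
    (ℕ →₀ ZMod 2) →+ (Y →ₜ+ UnitAddCircle) :=
  Finsupp.liftAddHom (fun i => ZMod.lift 2 ⟨zmultiplesHom _ (e i), by
    simpa using he i⟩)

lemma phi_single (e : ℕ → (Y →ₜ+ UnitAddCircle)) (he : ∀ i, (2 : ℤ) • e i = 0) (i : ℕ) :
    phi e he (Finsupp.single i 1) = e i := by
  have : (1 : ZMod 2) = ((1 : ℤ) : ZMod 2) := by simp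
  rw [phi, Finsupp.liftAddHom_apply_single, this, ZMod.lift_coe]
  simp

lemma phi_injective (e : ℕ → (Y →ₜ+ UnitAddCircle)) (he : ∀ i, (2 : ℤ) • e i = 0)
    (y : ℕ → Y) (h1 : ∀ i, e i (y i) ≠ 0) (h2 : ∀ i j, i ≠ j → e j (y i) = 0) :
    Function.Injective (phi e he) := by
  rw [injective_iff_map_eq_zero]
  intro x hx
  ext i
  have hval : ∀ (x : ℕ →₀ ZMod 2) (i : ℕ), (phi e he x) (y i) =
      (phi e he (Finsupp.single i (x i))) (y i) := by
    intro x i
    induction x using Finsupp.induction_linear with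
    | zero => simp
    | add f g hf hg =>
      rw [map_add, Finsupp.add_apply, Finsupp.single_add, map_add]
      change (phi e he f) (y i) + (phi e he g) (y i) = _ + _
      rw [hf, hg]
      rfl
    | single a b =>
      by_cases hab : a = i
      · subst hab; simp
      · rw [Finsupp.single_apply, if_neg hab]
        simp only [Finsupp.single_zero, map_zero]
        have hb : b = 0 ∨ b = 1 := by
          revert b; decide
        rcases hb with rfl | rfl
        · simp
        · rw [phi_single, h2 i a (Ne.symm hab)]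
          rfl
  have h3 := hval x i
  rw [hx] at h3
  have hb : x i = 0 ∨ x i = 1 := by
    generalize x i = b
    revert b; decide
  rcases hb with h4 | h4
  · simpa using h4
  · exfalso
    rw [h4, phi_single] at h3
    exact h1 i h3.symm

lemma coe_finset_sum_apply {ι : Type*} (s : Finset ι) (f : ι → (Y →ₜ+ UnitAddCircle)) (y : Y) :
    (∑ i ∈ s, f i) y = ∑ i ∈ s, f i y := by
  classical
  induction s using Finset.induction_on with
  | empty => rfl
  | insert a s ha ih =>
    rw [Finset.sum_insert ha, Finset.sum_insert ha]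
    change f a y + (∑ i ∈ s, f i) y = _
    rw [ih]

/-- Common kernels of independent sequences of order-two characters are T-characterized. -/
theorem isTCharacterized_of_basis (e : ℕ → (Y →ₜ+ UnitAddCircle))
    (he : ∀ i, (2 : ℤ) • e i = 0)
    (y : ℕ → Y) (h1 : ∀ i, e i (y i) ≠ 0) (h2 : ∀ i j, i ≠ j → e j (y i) = 0)
    (H : AddSubgroup Y) (hH : ∀ z, z ∈ H ↔ ∀ i, e i z = 0) : IsTCharacterized H := by
  refine ⟨fun n => phi e he (mseq n), isTSequence_of_injective _ (phi_injective e he y h1 h2), ?_⟩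
  have hev : ∀ n z, phi e he (mseq (2 * n)) z = e n z := by
    intro n z
    rw [mseq_even, phi_single]
  have hod : ∀ n z, phi e he (mseq (2 * n + 1)) z =
      e (Nat.unpair n).1 z + ∑ i ∈ Finset.Ico (2 ^ n) (2 ^ (n + 1)), e i z := by
    intro n z
    rw [mseq_odd, map_add, map_sum, phi_single]
    change e (Nat.unpair n).1 z + (∑ i ∈ Finset.Ico (2 ^ n) (2 ^ (n + 1)),
      phi e he (Finsupp.single i 1)) z = _
    rw [coe_finset_sum_apply]
    simp only [phi_single]
  have he2 : ∀ i z, (2 : ℕ) • e i z = 0 := by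
    intro i z
    have := congrArg (fun χ : (Y →ₜ+ UnitAddCircle) => χ z) (he i)
    simp only [two_zsmul] at this
    rw [two_nsmul]
    exact this
  ext z
  rw [hH]
  constructor
  · intro hz
    change Tendsto (fun n => (phi e he (mseq n)) z) atTop (𝓝 0)
    have : (fun n => (phi e he (mseq n)) z) = fun _ => 0 := by
      funext n
      rcases Nat.even_or_odd' n with ⟨k, hk | hk⟩
      · rw [hk, hev, hz]
      · rw [hk, hod, hz, zero_add]
        exact Finset.sum_eq_zero fun i _ => hz i
    rw [this]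
    exact tendsto_const_nhds
  · intro hz
    change Tendsto (fun n => (phi e he (mseq n)) z) atTop (𝓝 0) at hz
    have t2 : Tendsto (fun n : ℕ => 2 * n) atTop atTop :=
      tendsto_atTop_mono (fun n => (by omega : n ≤ 2 * n)) tendsto_id
    have t3 : Tendsto (fun n : ℕ => 2 * n + 1) atTop atTop :=
      tendsto_atTop_mono (fun n => (by omega : n ≤ 2 * n + 1)) tendsto_id
    have z1 : ∀ᶠ n in atTop, e n z = 0 := by
      apply eventually_zero (fun n => he2 n z)
      have := hz.comp t2
      simpa only [Function.comp_def, hev] using this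
    obtain ⟨N, hN⟩ := eventually_atTop.mp z1
    have z2 : ∀ᶠ n in atTop, e (Nat.unpair n).1 z = 0 := by
      apply eventually_zero (fun n => he2 _ z)
      have h3 := hz.comp t3
      simp only [Function.comp_def, hod] at h3
      apply h3.congr'
      filter_upwards [eventually_ge_atTop N] with n hn
      rw [Finset.sum_eq_zero, add_zero]
      intro i hi
      apply hN
      have h4 : n < 2 ^ n := Nat.lt_two_pow_self
      have h5 := (Finset.mem_Ico.mp hi).1
      omega
    obtain ⟨N', hN'⟩ := eventually_atTop.mp z2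
    intro i
    have := hN' (Nat.pair i N') (Nat.right_le_pair i N')
    rwa [Nat.unpair_pair] at this

end Dual

section Example

/-- The compact group `ℤ/4 × (ℤ/2)^ℕ × (ℤ/2)^ℕ`. -/
abbrev E : Type := ZMod 4 × (ℕ → ZMod 2) × (ℕ → ZMod 2)

/-- The subgroup `{(x, y, z) | 2 x = 0, y = 0}`. -/
def E1 : AddSubgroup E where
  carrier := {p | (2 : ℕ) • p.1 = 0 ∧ p.2.1 = 0}
  zero_mem' := by simp
  add_mem' := by
    rintro a b ⟨ha1, ha2⟩ ⟨hb1, hb2⟩
    refine ⟨?_, ?_⟩
    · rw [Prod.fst_add, smul_add, ha1, hb1, add_zero]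
    · rw [Prod.snd_add, Prod.fst_add, ha2, hb2, add_zero]
  neg_mem' := by
    rintro a ⟨ha1, ha2⟩
    refine ⟨?_, ?_⟩
    · rw [Prod.fst_neg, smul_neg, ha1, neg_zero]
    · rw [Prod.snd_neg, Prod.fst_neg, ha2, neg_zero]

/-- a continuous homomorphism to a finite cyclic group, composed with the embedding in the circle -/
noncomputable def chi {Y : Type*} [AddCommGroup Y] [TopologicalSpace Y] {N : ℕ} [NeZero N]
    (f : Y →+ ZMod N) (hf : Continuous f) : Y →ₜ+ UnitAddCircle where
  toFun y := ZMod.toAddCircle (f y)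
  map_zero' := by simp
  map_add' a b := by simp
  continuous_toFun := (continuous_of_discreteTopology (f := fun z : ZMod N =>
    (ZMod.toAddCircle z : UnitAddCircle))).comp hf

lemma chi_apply {Y : Type*} [AddCommGroup Y] [TopologicalSpace Y] {N : ℕ} [NeZero N]
    (f : Y →+ ZMod N) (hf : Continuous f) (y : Y) : chi f hf y = ZMod.toAddCircle (f y) := rfl

lemma chi_eq_zero {Y : Type*} [AddCommGroup Y] [TopologicalSpace Y] {N : ℕ} [NeZero N]
    (f : Y →+ ZMod N) (hf : Continuous f) (y : Y) : chi f hf y = 0 ↔ f y = 0 := by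
  rw [chi_apply, ZMod.toAddCircle_eq_zero]

/-- a continuous map from a finite cyclic group is continuous -/
lemma cont_of_fst {Z : Type*} (f : ZMod 4 → Z) [TopologicalSpace Z] : Continuous f :=
  continuous_of_discreteTopology

/-- order-two characters on `E` (as the top subgroup) -/
noncomputable def e2 : ℕ → (↥(⊤ : AddSubgroup E) →ₜ+ UnitAddCircle)
  | 0 => chi (N := 4) (AddMonoidHom.mk' (fun p : ↥(⊤ : AddSubgroup E) => 2 * (p : E).1)
      (fun a b => by simp [mul_add]))
      ((cont_of_fst (fun x => 2 * x)).comp (continuous_fst.comp continuous_subtype_val))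
  | i + 1 => chi (N := 2) (AddMonoidHom.mk' (fun p : ↥(⊤ : AddSubgroup E) => (p : E).2.1 i)
      (fun a b => by simp))
      ((continuous_apply i).comp (continuous_fst.comp (continuous_snd.comp continuous_subtype_val)))

lemma e2_zero (p : ↥(⊤ : AddSubgroup E)) : e2 0 p = 0 ↔ 2 * (p : E).1 = 0 := by
  rw [e2, chi_eq_zero]
  rfl

lemma e2_succ (i : ℕ) (p : ↥(⊤ : AddSubgroup E)) : e2 (i + 1) p = 0 ↔ (p : E).2.1 i = 0 := by
  rw [e2, chi_eq_zero]
  rfl

/-- order-two characters on `E1` -/
noncomputable def e1 : ℕ → (↥E1 →ₜ+ UnitAddCircle)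
  | 0 => chi (N := 4) (AddMonoidHom.mk' (fun p : ↥E1 => (p : E).1)
      (fun a b => by simp))
      (continuous_fst.comp continuous_subtype_val)
  | i + 1 => chi (N := 2) (AddMonoidHom.mk' (fun p : ↥E1 => (p : E).2.2 i)
      (fun a b => by simp))
      ((continuous_apply i).comp (continuous_snd.comp (continuous_snd.comp continuous_subtype_val)))

lemma e1_zero (p : ↥E1) : e1 0 p = 0 ↔ (p : E).1 = 0 := by
  rw [e1, chi_eq_zero]
  rfl

lemma e1_succ (i : ℕ) (p : ↥E1) : e1 (i + 1) p = 0 ↔ (p : E).2.2 i = 0 := by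
  rw [e1, chi_eq_zero]
  rfl

lemma smul_eq_zero_of {Y : Type*} [AddCommGroup Y] [TopologicalSpace Y]
    (χ : Y →ₜ+ UnitAddCircle) (h : ∀ y, χ (y + y) = 0) : (2 : ℤ) • χ = 0 := by
  rw [two_zsmul]
  ext y
  change χ y + χ y = 0
  rw [← map_add]
  exact h y

lemma zmod2_add_self (a : ZMod 2) : a + a = 0 := by revert a; decide

lemma e2_two (i : ℕ) : (2 : ℤ) • e2 i = 0 := by
  apply smul_eq_zero_of
  intro y
  cases i with
  | zero =>
    rw [e2_zero]
    change 2 * ((y : E).1 + (y : E).1) = 0
    generalize (y : E).1 = a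
    revert a; decide
  | succ i =>
    rw [e2_succ]
    exact zmod2_add_self _

lemma e1_two (i : ℕ) : (2 : ℤ) • e1 i = 0 := by
  apply smul_eq_zero_of
  intro y
  cases i with
  | zero =>
    rw [e1_zero]
    have := y.2.1
    rw [two_nsmul] at this
    exact this
  | succ i =>
    rw [e1_succ]
    exact zmod2_add_self _

/-- test points in `E` -/
def y2 : ℕ → ↥(⊤ : AddSubgroup E)
  | 0 => ⟨(1, 0, 0), trivial⟩
  | i + 1 => ⟨(0, Pi.single i 1, 0), trivial⟩

lemma e1_mem1 : ((2, 0, 0) : E) ∈ E1 := ⟨by decide, rfl⟩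

lemma e1_mem2 (z : ℕ → ZMod 2) : ((0, 0, z) : E) ∈ E1 :=
  ⟨by change (2 : ℕ) • (0 : ZMod 4) = 0; simp, rfl⟩

/-- test points in `E1` -/
def y1 : ℕ → ↥E1
  | 0 => ⟨(2, 0, 0), e1_mem1⟩
  | i + 1 => ⟨(0, 0, Pi.single i 1), e1_mem2 _⟩

lemma tchar_E1 : IsTCharacterized (E1.addSubgroupOf (⊤ : AddSubgroup E)) := by
  apply isTCharacterized_of_basis e2 e2_two y2
  · intro i
    cases i with
    | zero =>
      rw [Ne, e2_zero]
      change ¬ ((2 : ZMod 4) * 1 = 0)
      decide
    | succ i =>
      rw [Ne, e2_succ]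
      change ¬ ((Pi.single i 1 : ℕ → ZMod 2) i = 0)
      simp
  · intro i j hij
    cases i with
    | zero =>
      cases j with
      | zero => exact absurd rfl hij
      | succ j =>
        rw [e2_succ]
        rfl
    | succ i =>
      cases j with
      | zero =>
        rw [e2_zero]
        change ((2 : ZMod 4) * 0 = 0)
        decide
      | succ j =>
        rw [e2_succ]
        change ((Pi.single i 1 : ℕ → ZMod 2) j = 0)
        rw [Pi.single_apply, if_neg]
        intro h
        exact hij (by rw [h])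
  · intro z
    rw [AddSubgroup.mem_addSubgroupOf]
    constructor
    · rintro ⟨h1, h2⟩ i
      cases i with
      | zero =>
        rw [e2_zero]
        rw [nsmul_eq_mul] at h1
        exact_mod_cast h1
      | succ i =>
        rw [e2_succ, h2]
        rfl
    · intro h
      refine ⟨?_, ?_⟩
      · have := (e2_zero z).mp (h 0)
        rw [nsmul_eq_mul]
        exact_mod_cast this
      · funext i
        exact (e2_succ i z).mp (h (i + 1))

lemma tchar_bot : IsTCharacterized ((⊥ : AddSubgroup E).addSubgroupOf E1) := by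
  apply isTCharacterized_of_basis e1 e1_two y1
  · intro i
    cases i with
    | zero =>
      rw [Ne, e1_zero]
      change ¬ ((2 : ZMod 4) = 0)
      decide
    | succ i =>
      rw [Ne, e1_succ]
      change ¬ ((Pi.single i 1 : ℕ → ZMod 2) i = 0)
      simp
  · intro i j hij
    cases i with
    | zero =>
      cases j with
      | zero => exact absurd rfl hij
      | succ j =>
        rw [e1_succ]
        rfl
    | succ i =>
      cases j with
      | zero =>
        rw [e1_zero]
        rfl
      | succ j =>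
        rw [e1_succ]
        change ((Pi.single i 1 : ℕ → ZMod 2) j = 0)
        rw [Pi.single_apply, if_neg]
        intro h
        exact hij (by rw [h])
  · intro z
    rw [AddSubgroup.mem_addSubgroupOf, AddSubgroup.mem_bot]
    constructor
    · intro h i
      cases i with
      | zero =>
        rw [e1_zero, h]
        rfl
      | succ i =>
        rw [e1_succ, h]
        rfl
    · intro h
      have h1 := (e1_zero z).mp (h 0)
      have h2 := z.2.2
      have h3 : (z : E).2.2 = 0 := by
        funext i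
        exact (e1_succ i z).mp (h (i + 1))
      exact Prod.ext h1 (Prod.ext h2 h3)

lemma dual_emb : IsDuallyEmbedded (E1.addSubgroupOf (⊤ : AddSubgroup E)) := by
  intro χ
  -- points of `E1` inside `⊤`
  let emb : (ℕ → ZMod 2) → ↥(E1.addSubgroupOf (⊤ : AddSubgroup E)) := fun z =>
    ⟨⟨(0, 0, z), trivial⟩, e1_mem2 z⟩
  let pt : ↥(E1.addSubgroupOf (⊤ : AddSubgroup E)) := ⟨⟨(2, 0, 0), trivial⟩, e1_mem1⟩
  have hemb : Continuous emb := by
    apply Continuous.subtype_mk
    apply Continuous.subtype_mk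
    fun_prop
  have hpt2 : (2 : ℕ) • χ pt = 0 := by
    rw [two_nsmul, ← map_add]
    have : pt + pt = 0 := by
      apply Subtype.ext
      apply Subtype.ext
      change ((2 : ZMod 4) + 2, _, _) = ((0 : ZMod 4), _, _)
      congr 1
    rw [this, map_zero]
  -- extension on the first coordinate
  obtain ⟨ψ0, hψ0⟩ : ∃ ψ0 : ZMod 4 →+ UnitAddCircle, ψ0 2 = χ pt := by
    rcases circle_two hpt2 with h | h
    · exact ⟨0, by rw [h]; rfl⟩
    · refine ⟨ZMod.toAddCircle, ?_⟩
      rw [h]
      have : (2 : ZMod 4) = ((2 : ℕ) : ZMod 4) := by norm_num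
      rw [ZMod.toAddCircle_apply]
      congr 1
      change ((2 : ℕ) : ℝ) / ((4 : ℕ) : ℝ) = 1 / 2
      norm_num
  refine ⟨⟨AddMonoidHom.mk' (fun p : ↥(⊤ : AddSubgroup E) => ψ0 (p : E).1 + χ (emb (p : E).2.2)) ?_, ?_⟩, ?_⟩
  · intro a b
    have : emb ((a + b : ↥(⊤ : AddSubgroup E)) : E).2.2 = emb (a : E).2.2 + emb (b : E).2.2 := by
      apply Subtype.ext
      apply Subtype.ext
      change ((0 : ZMod 4), (0 : ℕ → ZMod 2), _) = ((0 : ZMod 4) + 0, (0 : ℕ → ZMod 2) + 0, _)
      simp
      rfl
    rw [this, map_add]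
    change ψ0 ((a : E).1 + (b : E).1) + _ = _
    rw [map_add]
    abel
  · change Continuous (fun p : ↥(⊤ : AddSubgroup E) => ψ0 (p : E).1 + χ (emb (p : E).2.2))
    apply Continuous.add
    · exact (cont_of_fst ψ0).comp (continuous_fst.comp continuous_subtype_val)
    · exact χ.continuous_toFun.comp (hemb.comp
        (continuous_snd.comp (continuous_snd.comp continuous_subtype_val)))
  · intro h
    change ψ0 ((h : ↥(⊤ : AddSubgroup E)) : E).1 + χ (emb ((h : ↥(⊤ : AddSubgroup E)) : E).2.2) = χ h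
    have hm : (((h : ↥(⊤ : AddSubgroup E)) : E)) ∈ E1 := h.2
    obtain ⟨h1, h2⟩ := hm
    have h3 : (((h : ↥(⊤ : AddSubgroup E)) : E)).1 = 0 ∨ (((h : ↥(⊤ : AddSubgroup E)) : E)).1 = 2 := by
      revert h1
      generalize (((h : ↥(⊤ : AddSubgroup E)) : E)).1 = a
      revert a; decide
    rcases h3 with h4 | h4
    · rw [h4, map_zero, zero_add]
      congr 1
      apply Subtype.ext
      apply Subtype.ext
      exact Prod.ext h4.symm (Prod.ext h2.symm rfl)
    · rw [h4, hψ0, ← map_add]
      congr 1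
      apply Subtype.ext
      apply Subtype.ext
      apply Prod.ext
      · rw [h4]
        change (2 : ZMod 4) + 0 = 2
        decide
      · apply Prod.ext
        · rw [h2]
          change (0 : ℕ → ZMod 2) + 0 = 0
          simp
        · change (0 : ℕ → ZMod 2) + _ = _
          simp
          rfl

lemma eventually_double_ne {G : Type*} [AddCommGroup G] [TopologicalSpace G]
    [IsTopologicalAddGroup G] [T2Space G] (w : ℕ → G) (ε : G) (hε : ε ≠ 0)
    (hw : Tendsto w atTop (𝓝 0)) : ∀ᶠ n in atTop, w n + w n ≠ ε := by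
  have hlim : Tendsto (fun n => w n + w n) atTop (𝓝 0) := by
    have := hw.add hw
    rwa [add_zero] at this
  exact hlim.eventually (isOpen_ne.mem_nhds (Ne.symm hε))

lemma not_tchar : ¬ IsTCharacterized ((⊥ : AddSubgroup E).addSubgroupOf (⊤ : AddSubgroup E)) := by
  rintro ⟨w, ⟨τ, hτ1, hτ2, hτ3⟩, hw⟩
  -- the point `(2, 0, 0)`
  let one : ↥(⊤ : AddSubgroup E) := ⟨(1, 0, 0), trivial⟩
  let t : ↥(⊤ : AddSubgroup E) := ⟨(2, 0, 0), trivial⟩
  have ht : t = (2 : ℕ) • one := by
    apply Subtype.ext
    rw [two_nsmul]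
    change ((2 : ZMod 4), (0 : ℕ → ZMod 2), (0 : ℕ → ZMod 2)) = (1 + 1, 0 + 0, 0 + 0)
    simp
    decide
  have ht0 : t ∉ (⊥ : AddSubgroup E).addSubgroupOf (⊤ : AddSubgroup E) := by
    rw [AddSubgroup.mem_addSubgroupOf, AddSubgroup.mem_bot]
    intro h
    have := congrArg Prod.fst h
    revert this
    change ¬ ((2 : ZMod 4) = 0)
    decide
  apply ht0
  rw [hw]
  change Tendsto (fun n => w n t) atTop (𝓝 0)
  -- `2 • w n` only depends on its value at `one`
  let ε : ↥(⊤ : AddSubgroup E) →ₜ+ UnitAddCircle := e2 0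
  have hpp : ∀ p : ↥(⊤ : AddSubgroup E), p + p = (p : E).1.val • t := by
    intro p
    apply Subtype.ext
    have hx : (p : E).1 + (p : E).1 = (p : E).1.val • (2 : ZMod 4) := by
      generalize (p : E).1 = a
      revert a; decide
    have h2 : ∀ z : ℕ → ZMod 2, z + z = 0 := by
      intro z
      funext i
      exact zmod2_add_self _
    apply Prod.ext
    · exact hx
    · apply Prod.ext
      · change (p : E).2.1 + (p : E).2.1 = (p : E).1.val • (0 : ℕ → ZMod 2)
        rw [h2, smul_zero]
      · change (p : E).2.2 + (p : E).2.2 = (p : E).1.val • (0 : ℕ → ZMod 2)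
        rw [h2, smul_zero]
  have htt : (2 : ℕ) • t = 0 := by
    apply Subtype.ext
    rw [two_nsmul]
    change ((2 : ZMod 4) + 2, (0 : ℕ → ZMod 2) + 0, (0 : ℕ → ZMod 2) + 0) = (0, 0, 0)
    simp
    decide
  have hhalf : (ZMod.toAddCircle (2 : ZMod 4) : UnitAddCircle) = ((1 / 2 : ℝ) : UnitAddCircle) := by
    rw [ZMod.toAddCircle_apply]
    congr 1
    change ((2 : ℕ) : ℝ) / ((4 : ℕ) : ℝ) = 1 / 2
    norm_num
  have key : ∀ χ : ↥(⊤ : AddSubgroup E) →ₜ+ UnitAddCircle, χ + χ = 0 ∨ χ + χ = ε := by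
    intro χ
    have h1 : (2 : ℕ) • χ t = 0 := by rw [← map_nsmul, htt, map_zero]
    rcases circle_two h1 with h2 | h2
    · left
      ext p
      change χ p + χ p = 0
      rw [← map_add, hpp, map_nsmul, h2, smul_zero]
    · right
      ext p
      change χ p + χ p = ZMod.toAddCircle (2 * (p : E).1)
      rw [← map_add, hpp, map_nsmul, h2, ← hhalf, ← map_nsmul]
      congr 1
      generalize (p : E).1 = a
      revert a; decide
  have hε : ε ≠ 0 := by
    intro h
    have h1 : ε one = 0 := by rw [h]; rfl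
    have h2 := (e2_zero one).mp h1
    revert h2
    change ¬ ((2 : ZMod 4) * 1 = 0)
    decide
  have hev : ∀ᶠ n in atTop, w n + w n ≠ ε :=
    @eventually_double_ne _ _ τ hτ1 hτ2 w ε hε hτ3
  apply tendsto_const_nhds.congr'
  filter_upwards [hev] with n hn
  have h1 := (key (w n)).resolve_right hn
  rw [ht, map_nsmul, two_nsmul]
  have := congrArg (fun χ : (↥(⊤ : AddSubgroup E) →ₜ+ UnitAddCircle) => χ one) h1
  exact this.symm

end Example

lemma compact_E : CompactSpace E := inferInstance

lemma metrizable_E : TopologicalSpace.MetrizableSpace E :=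
  TopologicalSpace.metrizableSpace_of_t3_secondCountable E

/-- **T-characterized subgroups are not transitive**, even for compact metrizable groups: there are
a compact metrizable abelian group `X` and subgroups `X₀ ≤ X₁ ≤ X₂` of `X` with `X₁` dually embedded
in `X₂`, `X₀` T-characterized in `X₁`, `X₁` T-characterized in `X₂`, and `X₀` not T-characterized
in `X₂`. -/
theorem result : ∃ (X : Type) (_ : AddCommGroup X) (_ : TopologicalSpace X)
    (_ : IsTopologicalAddGroup X) (X₀ X₁ X₂ : AddSubgroup X),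
    CompactSpace X ∧ TopologicalSpace.MetrizableSpace X ∧
    X₀ ≤ X₁ ∧ X₁ ≤ X₂ ∧ IsDuallyEmbedded (X₁.addSubgroupOf X₂) ∧
    IsTCharacterized (X₀.addSubgroupOf X₁) ∧ IsTCharacterized (X₁.addSubgroupOf X₂) ∧
    ¬ IsTCharacterized (X₀.addSubgroupOf X₂) :=
  ⟨E, inferInstance, inferInstance, inferInstance, ⊥, E1, ⊤, compact_E, metrizable_E, bot_le,
    le_top, dual_emb, tchar_bot, tchar_E1, not_tchar⟩

end Pool.Agent.Results.MP_24a371_gt.TransitivityFails
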